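import Mathlib

/-!
# Prescribing the orders of Q-normality

For every `j ≥ 1` there are a fully divergent basic sequence `Q` (even with `q_n → ∞`) and a real number
`x` that is `Q`-normal of every order `k ≠ j` but not `Q`-normal of order `j`.

Stage `m` of the construction uses the constant base `b = m + 2` and repeats one long word: the
concatenation of all words of length `K = b ^ b` over `{0, …, b - 1}`, followed by `K b ^ (K - j)` copies of
the word `(b-1) 0^j (b-1)`.  The copies double the number of occurrences of the block `0^j`; they are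
negligible for the blocks of smaller length, and create no block of larger length with letters `< b - 1`.
-/

set_option autoImplicit false

namespace Pool.Agent.Results.MP_f007e6_nt.AllPartitions

open Filter Finset

/-! ### Stage words -/

/-- The base used in stage `m`. -/
def bb (m : ℕ) : ℕ := m + 2
/-- The length of the sub-words in stage `m`. -/
def KK (m : ℕ) : ℕ := (bb m) ^ (bb m)
/-- The number of inserted blocks in stage `m`. -/
def ss (j m : ℕ) : ℕ := KK m * bb m ^ (KK m - j)
/-- The length of the first part of the stage word. -/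
def l1 (m : ℕ) : ℕ := bb m ^ KK m * KK m
/-- The length of the stage word. -/
def len (j m : ℕ) : ℕ := l1 m + ss j m * (j + 2)

/-- The letter number `t` of the stage word. -/
def word (j m t : ℕ) : ℕ :=
  if t < l1 m then (t / KK m) / bb m ^ (t % KK m) % bb m
  else if (t - l1 m) % (j + 2) = 0 ∨ (t - l1 m) % (j + 2) = j + 1 then bb m - 1 else 0

lemma bb_pos (m : ℕ) : 0 < bb m := by unfold bb; omega
lemma KK_pos (m : ℕ) : 0 < KK m := pow_pos (bb_pos m) _
lemma l1_pos (m : ℕ) : 0 < l1 m := Nat.mul_pos (pow_pos (bb_pos m) _) (KK_pos m)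
lemma len_pos (j m : ℕ) : 0 < len j m := by
  have := l1_pos m
  unfold len
  omega

lemma word_lt (j m t : ℕ) : word j m t < bb m := by
  have := bb_pos m
  unfold word
  split_ifs
  · exact Nat.mod_lt _ this
  · omega
  · exact this

/-- Occurrences of the block `B` starting at position `t` of a sequence `w`. -/
def Occ {k : ℕ} (w : ℕ → ℕ) (B : Fin k → ℕ) (t : ℕ) : Prop := ∀ v : Fin k, w (t + v) = B v

instance {k : ℕ} (w : ℕ → ℕ) (B : Fin k → ℕ) (t : ℕ) : Decidable (Occ w B t) := by
  unfold Occ; infer_instance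

/-- Number of words of length `K` over `b` letters having a prescribed block at a prescribed place. -/
lemma card_prescribed {k : ℕ} (b K u : ℕ) (B : Fin k → ℕ) (hB : ∀ v, B v < b)
    (hu : u + k ≤ K) :
    ((range (b ^ K)).filter (fun a => ∀ v : Fin k, a / b ^ (u + v) % b = B v)).card = b ^ (K - k) := by
  classical
  -- pass to functions
  have h1 : ((range (b ^ K)).filter (fun a => ∀ v : Fin k, a / b ^ (u + v) % b = B v)).card
      = ((Finset.univ : Finset (Fin K → Fin b)).filter
        (fun f => ∀ v : Fin k, (f ⟨u + v, by omega⟩ : ℕ) = B v)).card := by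
    symm
    apply Finset.card_bij (fun f _ => ((finFunctionFinEquiv f : Fin (b ^ K)) : ℕ))
    · intro f hf
      rw [Finset.mem_filter] at hf
      rw [Finset.mem_filter, Finset.mem_range]
      refine ⟨(finFunctionFinEquiv f).2, ?_⟩
      intro v
      rw [← hf.2 v]
      have := finFunctionFinEquiv_symm_apply_val (finFunctionFinEquiv f) (⟨u + v, by omega⟩ : Fin K)
      rw [Equiv.symm_apply_apply] at this
      exact this.symm
    · intro f _ g _ h
      exact finFunctionFinEquiv.injective (Fin.ext h)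
    · intro a ha
      rw [Finset.mem_filter, Finset.mem_range] at ha
      refine ⟨finFunctionFinEquiv.symm ⟨a, ha.1⟩, ?_, ?_⟩
      · rw [Finset.mem_filter]
        refine ⟨Finset.mem_univ _, ?_⟩
        intro v
        rw [← ha.2 v]
        exact finFunctionFinEquiv_symm_apply_val _ _
      · rw [Equiv.apply_symm_apply]
  rw [h1]
  have h2 : (Finset.univ : Finset (Fin K → Fin b)).filter
        (fun f => ∀ v : Fin k, (f ⟨u + v, by omega⟩ : ℕ) = B v)
      = Fintype.piFinset (fun i : Fin K => if h : u ≤ i ∧ (i : ℕ) < u + k then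
          {(⟨B ⟨i - u, by omega⟩, hB _⟩ : Fin b)} else Finset.univ) := by
    ext f
    simp only [Finset.mem_filter, Finset.mem_univ, true_and, Fintype.mem_piFinset]
    constructor
    · intro h i
      split_ifs with hi
      · rw [Finset.mem_singleton]
        have := h ⟨i - u, by omega⟩
        ext
        simp only
        rw [← this]
        congr 2
        ext
        simp
        omega
      · exact Finset.mem_univ _
    · intro h v
      have := h ⟨u + v, by omega⟩
      rw [dif_pos (by constructor <;> simp), Finset.mem_singleton] at this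
      rw [this]
      simp
  rw [h2, Fintype.card_piFinset]
  have h3 : ∀ i : Fin K, (if h : u ≤ i ∧ (i : ℕ) < u + k then
          {(⟨B ⟨i - u, by omega⟩, hB _⟩ : Fin b)} else (Finset.univ : Finset (Fin b))).card
          = if u ≤ i ∧ (i : ℕ) < u + k then 1 else b := by
    intro i
    split_ifs <;> simp
  rw [Finset.prod_congr rfl (fun i _ => h3 i)]
  rw [Fin.prod_univ_eq_prod_range (fun i => if u ≤ i ∧ i < u + k then 1 else b) K]
  rw [Finset.prod_ite, Finset.prod_const_one, one_mul, Finset.prod_const]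
  congr 1
  have h4 : (range K).filter (fun i => ¬ (u ≤ i ∧ i < u + k)) = range K \ Finset.Ico u (u + k) := by
    ext i
    simp [Finset.mem_sdiff]
  rw [h4, Finset.card_sdiff_of_subset]
  · simp
  · intro i hi
    rw [Finset.mem_Ico] at hi
    rw [Finset.mem_range]
    omega

lemma word_first (j m a u : ℕ) (ha : a < bb m ^ KK m) (hu : u < KK m) :
    word j m (a * KK m + u) = a / bb m ^ u % bb m := by
  have hK := KK_pos m
  have h1 : a * KK m + u < l1 m := by
    unfold l1
    calc a * KK m + u < a * KK m + KK m := by omega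
      _ = (a + 1) * KK m := by ring
      _ ≤ bb m ^ KK m * KK m := Nat.mul_le_mul_right _ (by omega)
  unfold word
  rw [if_pos h1]
  have h2 : (a * KK m + u) / KK m = a := by
    rw [Nat.add_comm, Nat.add_mul_div_right _ _ hK, Nat.div_eq_of_lt hu, Nat.zero_add]
  have h3 : (a * KK m + u) % KK m = u := by
    rw [Nat.add_comm, Nat.add_mul_mod_self_right, Nat.mod_eq_of_lt hu]
  rw [h2, h3]

lemma cntA1 {k : ℕ} (j m : ℕ) (B : Fin k → ℕ) (hB : ∀ v, B v < bb m) (hk1 : 1 ≤ k) (hk : k ≤ KK m) :
    ((range (l1 m)).filter (fun t => t % KK m + k ≤ KK m ∧ Occ (word j m) B t)).card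
      = (KK m - k + 1) * bb m ^ (KK m - k) := by
  have hK := KK_pos m
  rw [Finset.card_eq_sum_card_fiberwise (f := fun t => t % KK m) (t := range (KK m - k + 1))]
  · have : ∀ u ∈ range (KK m - k + 1), (((range (l1 m)).filter
        (fun t => t % KK m + k ≤ KK m ∧ Occ (word j m) B t)).filter (fun t => t % KK m = u)).card
          = bb m ^ (KK m - k) := by
      intro u hu
      rw [Finset.mem_range] at hu
      rw [← card_prescribed (bb m) (KK m) u B hB (by omega)]
      symm
      apply Finset.card_bij (fun a _ => a * KK m + u)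
      · intro a ha
        rw [Finset.mem_filter, Finset.mem_range] at ha
        have hmod : (a * KK m + u) % KK m = u := by
          rw [Nat.add_comm, Nat.add_mul_mod_self_right, Nat.mod_eq_of_lt (by omega)]
        rw [Finset.mem_filter, Finset.mem_filter, Finset.mem_range, hmod]
        refine ⟨⟨?_, by omega, ?_⟩, rfl⟩
        · unfold l1
          calc a * KK m + u < a * KK m + KK m := by omega
            _ = (a + 1) * KK m := by ring
            _ ≤ bb m ^ KK m * KK m := Nat.mul_le_mul_right _ (by omega)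
        · intro v
          rw [← ha.2 v, Nat.add_assoc]
          exact word_first j m a (u + v) ha.1 (by omega)
      · intro a _ a' _ h
        exact Nat.eq_of_mul_eq_mul_right hK (by omega)
      · intro t ht
        rw [Finset.mem_filter, Finset.mem_filter, Finset.mem_range] at ht
        obtain ⟨⟨h1, h2, h3⟩, h4⟩ := ht
        have hdm : t / KK m * KK m + u = t := by
          rw [← h4]
          exact Nat.div_add_mod' t (KK m)
        have ha : t / KK m < bb m ^ KK m := by
          rw [Nat.div_lt_iff_lt_mul hK]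
          exact h1
        refine ⟨t / KK m, ?_, hdm⟩
        rw [Finset.mem_filter, Finset.mem_range]
        refine ⟨ha, ?_⟩
        intro v
        rw [← h3 v, ← word_first j m (t / KK m) (u + v) ha (by omega)]
        congr 1
        omega
    rw [Finset.sum_congr rfl this]
    simp
  · intro t ht
    simp only [Finset.coe_filter, Set.mem_ofPred_eq] at ht
    simp only [Finset.coe_range, Set.mem_Iio]
    omega

lemma cntA2 (k m : ℕ) :
    ((range (l1 m)).filter (fun t => KK m < t % KK m + k)).card ≤ k * bb m ^ KK m := by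
  have hK := KK_pos m
  have : ((range (l1 m)).filter (fun t => KK m < t % KK m + k)).card
      ≤ (range k ×ˢ range (bb m ^ KK m)).card := by
    apply Finset.card_le_card_of_injOn (fun t => (KK m - 1 - t % KK m, t / KK m))
    · intro t ht
      simp only [Finset.coe_filter, Finset.mem_range, Set.mem_ofPred_eq] at ht
      have h1 : t / KK m < bb m ^ KK m := by
        rw [Nat.div_lt_iff_lt_mul hK]
        exact ht.1
      have h2 := Nat.mod_lt t hK
      simp only [Finset.coe_product, Finset.coe_range, Set.mem_prod, Set.mem_Iio]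
      exact ⟨by omega, h1⟩
    · intro t _ t' _ h
      simp only [Prod.mk.injEq] at h
      have h2 := Nat.mod_lt t hK
      have h2' := Nat.mod_lt t' hK
      have h3 : t % KK m = t' % KK m := by omega
      rw [← Nat.div_add_mod t (KK m), ← Nat.div_add_mod t' (KK m), h3, h.2]
  simpa using this

lemma word_second (j m t : ℕ) (ht : l1 m ≤ t) (h : (t - l1 m) % (j + 2) = 0 ∨ (t - l1 m) % (j + 2) = j + 1) :
    word j m t = bb m - 1 := by
  unfold word
  rw [if_neg (by omega), if_pos h]

lemma no_occ_second {k : ℕ} (j m t : ℕ) (B : Fin k → ℕ) (hB : ∀ v, B v < bb m - 1) (hk : j < k)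
    (ht : l1 m ≤ t) : ¬ Occ (word j m) B t := by
  intro h
  have hmod := Nat.mod_lt (t - l1 m) (show 0 < j + 2 by omega)
  by_cases h0 : (t - l1 m) % (j + 2) = 0
  · have h1 := h ⟨0, by omega⟩
    have h2 := hB ⟨0, by omega⟩
    simp only [Nat.add_zero] at h1
    rw [word_second j m t ht (Or.inl h0)] at h1
    omega
  · set o := (t - l1 m) % (j + 2) with ho
    have h1 := h ⟨j + 1 - o, by omega⟩
    have h2 := hB ⟨j + 1 - o, by omega⟩
    simp only at h1
    rw [word_second j m _ (by omega) (Or.inr ?_)] at h1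
    · omega
    · have : t + (j + 1 - o) - l1 m = (j + 1) + (j + 2) * ((t - l1 m) / (j + 2)) := by
        have := Nat.div_add_mod (t - l1 m) (j + 2)
        omega
      rw [this, Nat.add_mul_mod_self_left, Nat.mod_eq_of_lt (by omega)]

lemma occ_inserted (j m r : ℕ) : Occ (word j m) (fun _ : Fin j => 0) (l1 m + (r * (j + 2) + 1)) := by
  intro v
  have hv := v.2
  have h1 : (l1 m + (r * (j + 2) + 1) + (v : ℕ) - l1 m) = (v + 1) + (j + 2) * r := by
    have : r * (j + 2) = (j + 2) * r := by ring
    omega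
  have h2 : (l1 m + (r * (j + 2) + 1) + (v : ℕ) - l1 m) % (j + 2) = v + 1 := by
    rw [h1, Nat.add_mul_mod_self_left, Nat.mod_eq_of_lt (by omega)]
  unfold word
  rw [if_neg (by omega), h2, if_neg (by omega)]

/-- Upper bound for the number of occurrences. -/
lemma count_upper {k : ℕ} (j m : ℕ) (B : Fin k → ℕ) (hB : ∀ v, B v < bb m - 1) (hk1 : 1 ≤ k)
    (hk : k ≤ KK m) (hkj : k ≠ j) (w : ℕ → ℕ)
    (hw : ∀ t, t < len j m → w t = word j m t) :
    ((range (len j m)).filter (fun t => Occ w B t)).card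
      ≤ KK m * bb m ^ (KK m - k) + k * bb m ^ KK m + (if k < j then ss j m * (j + 2) else 0) + k := by
  classical
  set A1 := (range (l1 m)).filter (fun t => t % KK m + k ≤ KK m ∧ Occ (word j m) B t) with hA1
  set A2 := (range (l1 m)).filter (fun t => KK m < t % KK m + k) with hA2
  set A3 := (Finset.Ico (l1 m) (len j m)).filter (fun t => Occ (word j m) B t) with hA3
  set A4 := Finset.Ico (len j m - k) (len j m) with hA4
  have hsub : (range (len j m)).filter (fun t => Occ w B t) ⊆ A1 ∪ A2 ∪ A3 ∪ A4 := by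
    intro t ht
    rw [Finset.mem_filter, Finset.mem_range] at ht
    simp only [Finset.mem_union, hA1, hA2, hA3, hA4, Finset.mem_filter, Finset.mem_range, Finset.mem_Ico]
    by_cases h1 : t + k ≤ len j m
    · have hocc : Occ (word j m) B t := by
        intro v
        rw [← ht.2 v, hw _ (by omega)]
      by_cases h2 : t < l1 m
      · by_cases h3 : t % KK m + k ≤ KK m
        · left; left; left; exact ⟨h2, h3, hocc⟩
        · left; left; right; exact ⟨h2, by omega⟩
      · left; right; exact ⟨⟨by omega, ht.1⟩, hocc⟩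
    · right; omega
  have c1 : A1.card ≤ KK m * bb m ^ (KK m - k) := by
    rw [hA1, cntA1 j m B (fun v => by have := hB v; omega) hk1 hk]
    exact Nat.mul_le_mul_right _ (by omega)
  have c2 : A2.card ≤ k * bb m ^ KK m := cntA2 k m
  have c3 : A3.card ≤ (if k < j then ss j m * (j + 2) else 0) := by
    split_ifs with h
    · calc A3.card ≤ (Finset.Ico (l1 m) (len j m)).card := Finset.card_filter_le _ _
        _ = ss j m * (j + 2) := by rw [Nat.card_Ico]; unfold len; omega
    · rw [Nat.le_zero, Finset.card_eq_zero, hA3, Finset.filter_eq_empty_iff]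
      intro t ht
      rw [Finset.mem_Ico] at ht
      exact no_occ_second j m t B hB (by omega) ht.1
  have c4 : A4.card ≤ k := by
    rw [hA4, Nat.card_Ico]
    omega
  calc ((range (len j m)).filter (fun t => Occ w B t)).card ≤ (A1 ∪ A2 ∪ A3 ∪ A4).card :=
        Finset.card_le_card hsub
    _ ≤ A1.card + A2.card + A3.card + A4.card := by
        refine (Finset.card_union_le _ _).trans ?_
        refine Nat.add_le_add_right ((Finset.card_union_le _ _).trans ?_) _
        exact Nat.add_le_add_right (Finset.card_union_le _ _) _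
    _ ≤ _ := by omega

/-- Lower bound for the number of occurrences. -/
lemma count_lower {k : ℕ} (j m : ℕ) (B : Fin k → ℕ) (hB : ∀ v, B v < bb m) (hk1 : 1 ≤ k)
    (hk : k ≤ KK m) (w : ℕ → ℕ) (hw : ∀ t, t < len j m → w t = word j m t) :
    (KK m - k + 1) * bb m ^ (KK m - k) ≤ ((range (len j m)).filter (fun t => Occ w B t)).card := by
  rw [← cntA1 j m B hB hk1 hk]
  apply Finset.card_le_card
  intro t ht
  rw [Finset.mem_filter, Finset.mem_range] at ht ⊢
  obtain ⟨h1, h2, h3⟩ := ht
  have hl : l1 m ≤ len j m := by unfold len; omega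
  have hK := KK_pos m
  have h4 : t + k ≤ l1 m := by
    have h5 := Nat.div_add_mod t (KK m)
    have ha : t / KK m < bb m ^ KK m := by
      rw [Nat.div_lt_iff_lt_mul hK]
      exact h1
    have h6 : KK m * (t / KK m + 1) ≤ KK m * bb m ^ KK m := Nat.mul_le_mul_left _ ha
    have h7 : l1 m = KK m * bb m ^ KK m := by unfold l1; ring
    rw [h7]
    rw [Nat.mul_add, Nat.mul_one] at h6
    omega
  refine ⟨by omega, ?_⟩
  intro v
  rw [← h3 v, hw _ (by omega)]

/-- Lower bound for the number of occurrences of `0^j`. -/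
lemma count_lower_j (j m : ℕ) (hj : 1 ≤ j) (hk : j ≤ KK m) (w : ℕ → ℕ)
    (hw : ∀ t, t < len j m → w t = word j m t) :
    (KK m - j + 1) * bb m ^ (KK m - j) + ss j m
      ≤ ((range (len j m)).filter (fun t => Occ w (fun _ : Fin j => 0) t)).card := by
  classical
  have hl : len j m = l1 m + ss j m * (j + 2) := rfl
  have hK := KK_pos m
  set A1 := (range (l1 m)).filter (fun t => t % KK m + j ≤ KK m ∧
    Occ (word j m) (fun _ : Fin j => 0) t) with hA1
  set A3 := (range (ss j m)).image (fun r => l1 m + (r * (j + 2) + 1)) with hA3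
  have hsub : A1 ∪ A3 ⊆ (range (len j m)).filter (fun t => Occ w (fun _ : Fin j => 0) t) := by
    intro t ht
    rw [Finset.mem_union] at ht
    rw [Finset.mem_filter, Finset.mem_range]
    rcases ht with ht | ht
    · rw [hA1, Finset.mem_filter, Finset.mem_range] at ht
      obtain ⟨h1, h2, h3⟩ := ht
      have h4 : t + j ≤ l1 m := by
        have h5 := Nat.div_add_mod t (KK m)
        have ha : t / KK m < bb m ^ KK m := by
          rw [Nat.div_lt_iff_lt_mul hK]
          exact h1
        have h6 : KK m * (t / KK m + 1) ≤ KK m * bb m ^ KK m := Nat.mul_le_mul_left _ ha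
        have h7 : l1 m = KK m * bb m ^ KK m := by unfold l1; ring
        rw [h7]
        rw [Nat.mul_add, Nat.mul_one] at h6
        omega
      refine ⟨by omega, ?_⟩
      intro v
      rw [hw _ (by omega)]
      exact h3 v
    · rw [hA3, Finset.mem_image] at ht
      obtain ⟨r, hr, rfl⟩ := ht
      rw [Finset.mem_range] at hr
      have h8 : (r + 1) * (j + 2) ≤ ss j m * (j + 2) := Nat.mul_le_mul_right _ hr
      have h9 : (r + 1) * (j + 2) = r * (j + 2) + (j + 2) := by ring
      refine ⟨by omega, ?_⟩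
      intro v
      rw [hw _ (by omega)]
      exact occ_inserted j m r v
  have hdisj : Disjoint A1 A3 := by
    rw [Finset.disjoint_left]
    intro t h1 h3
    rw [hA1, Finset.mem_filter, Finset.mem_range] at h1
    rw [hA3, Finset.mem_image] at h3
    obtain ⟨r, _, hr⟩ := h3
    omega
  calc (KK m - j + 1) * bb m ^ (KK m - j) + ss j m = A1.card + A3.card := by
        rw [hA1, cntA1 j m _ (fun _ => bb_pos m) hj hk, hA3, Finset.card_image_of_injective]
        · simp
        · intro r r' h
          simp only at h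
          have : r * (j + 2) = r' * (j + 2) := by omega
          exact Nat.eq_of_mul_eq_mul_right (by omega) this
    _ = (A1 ∪ A3).card := (Finset.card_union_of_disjoint hdisj).symm
    _ ≤ _ := Finset.card_le_card hsub

/-! ### Comparison with the expected number -/

/-- The expected number of occurrences of a block of length `k` in a stage word. -/
def WW (k m : ℕ) : ℕ := KK m * bb m ^ (KK m - k)

lemma WW_pos (k m : ℕ) : 1 ≤ WW k m := Nat.mul_pos (KK_pos m) (pow_pos (bb_pos m) _)

lemma bb_le_KK (m : ℕ) : bb m ≤ KK m := Nat.le_self_pow (by have := bb_pos m; omega) _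

lemma count_ratio {k : ℕ} (j m : ℕ) (B : Fin k → ℕ) (hB : ∀ v, B v < bb m - 1) (hk1 : 1 ≤ k)
    (hk : k + 1 ≤ bb m) (hkj : k ≠ j) (w : ℕ → ℕ) (hw : ∀ t, t < len j m → w t = word j m t) :
    |((((range (len j m)).filter (fun t => Occ w B t)).card : ℕ) : ℝ) / (WW k m : ℝ) - 1|
      ≤ (2 * k + j + 2) / (bb m : ℝ) := by
  have hbK := bb_le_KK m
  have hb := bb_pos m
  have hup := count_upper j m B hB hk1 (by omega) hkj w hw
  have hlo := count_lower j m B (fun v => by have := hB v; omega) hk1 (by omega) w hw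
  set N := ((range (len j m)).filter (fun t => Occ w B t)).card with hN
  have hW1 := WW_pos k m
  have hWdef : WW k m = KK m * bb m ^ (KK m - k) := rfl
  -- the three error terms
  have e1 : k * bb m ^ KK m * bb m ≤ k * WW k m := by
    rw [Nat.mul_assoc]
    apply Nat.mul_le_mul_left
    have h1 : bb m ^ (k + 1) ≤ KK m := Nat.pow_le_pow_right hb hk
    have h2 : bb m ^ KK m = bb m ^ k * bb m ^ (KK m - k) := by
      rw [← pow_add]
      congr 1
      omega
    calc bb m ^ KK m * bb m = bb m ^ (k + 1) * bb m ^ (KK m - k) := by rw [h2]; ring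
      _ ≤ KK m * bb m ^ (KK m - k) := Nat.mul_le_mul_right _ h1
  have e2 : (if k < j then ss j m * (j + 2) else 0) * bb m ≤ (j + 2) * WW k m := by
    split_ifs with h
    · have h1 : ss j m * bb m ≤ WW k m := by
        unfold ss
        rw [Nat.mul_assoc, ← pow_succ]
        rcases Nat.lt_or_ge (KK m) j with hK | hK
        · have h0 : KK m - j = 0 := by omega
          rw [h0, hWdef]
          apply Nat.mul_le_mul_left
          apply Nat.pow_le_pow_right hb
          omega
        · rw [hWdef]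
          apply Nat.mul_le_mul_left
          apply Nat.pow_le_pow_right hb
          omega
      calc ss j m * (j + 2) * bb m = (j + 2) * (ss j m * bb m) := by ring
        _ ≤ _ := Nat.mul_le_mul_left _ h1
    · simp
  have e3 : k * bb m ≤ k * WW k m := by
    apply Nat.mul_le_mul_left
    calc bb m ≤ KK m := hbK
      _ = KK m * 1 := by ring
      _ ≤ WW k m := Nat.mul_le_mul_left _ (pow_pos hb _)
  have hupN : N * bb m ≤ WW k m * bb m + (2 * k + j + 2) * WW k m := by
    calc N * bb m ≤ (KK m * bb m ^ (KK m - k) + k * bb m ^ KK m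
          + (if k < j then ss j m * (j + 2) else 0) + k) * bb m := Nat.mul_le_mul_right _ hup
      _ = WW k m * bb m + k * bb m ^ KK m * bb m
          + (if k < j then ss j m * (j + 2) else 0) * bb m + k * bb m := by rw [hWdef]; ring
      _ ≤ WW k m * bb m + k * WW k m + (j + 2) * WW k m + k * WW k m := by omega
      _ = _ := by ring
  have hloN : WW k m * bb m ≤ N * bb m + (2 * k + j + 2) * WW k m := by
    have h1 : WW k m ≤ N + k * bb m ^ (KK m - k) := by
      calc WW k m = (KK m - k) * bb m ^ (KK m - k) + k * bb m ^ (KK m - k) := by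
            rw [hWdef, ← Nat.add_mul]
            congr 1
            omega
        _ ≤ (KK m - k + 1) * bb m ^ (KK m - k) + k * bb m ^ (KK m - k) :=
            Nat.add_le_add_right (Nat.mul_le_mul_right _ (by omega)) _
        _ ≤ _ := Nat.add_le_add_right hlo _
    have h2 : k * bb m ^ (KK m - k) * bb m ≤ k * WW k m := by
      rw [Nat.mul_assoc]
      apply Nat.mul_le_mul_left
      rw [hWdef, Nat.mul_comm]
      exact Nat.mul_le_mul_right _ hbK
    calc WW k m * bb m ≤ (N + k * bb m ^ (KK m - k)) * bb m := Nat.mul_le_mul_right _ h1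
      _ = N * bb m + k * bb m ^ (KK m - k) * bb m := by ring
      _ ≤ N * bb m + k * WW k m := by omega
      _ ≤ _ := by
        apply Nat.add_le_add_left
        apply Nat.mul_le_mul_right
        omega
  have hWr : (0 : ℝ) < (WW k m : ℝ) := by exact_mod_cast hW1
  have hbr : (0 : ℝ) < (bb m : ℝ) := by exact_mod_cast hb
  have hup' : (N : ℝ) * bb m ≤ WW k m * bb m + (2 * k + j + 2) * WW k m := by exact_mod_cast hupN
  have hlo' : (WW k m : ℝ) * bb m ≤ N * bb m + (2 * k + j + 2) * WW k m := by exact_mod_cast hloN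
  rw [abs_le]
  constructor
  · rw [neg_le_sub_iff_le_add, div_add_div _ _ hWr.ne' hbr.ne', le_div_iff₀ (mul_pos hWr hbr)]
    linarith
  · rw [sub_le_iff_le_add, div_add' _ _ _ hbr.ne', div_le_div_iff₀ hWr hbr]
    linarith

lemma count_ratio_j (j m : ℕ) (hj : 1 ≤ j) (hk : j + 1 ≤ bb m) (w : ℕ → ℕ)
    (hw : ∀ t, t < len j m → w t = word j m t) :
    2 - (j : ℝ) / (bb m : ℝ) ≤
      ((((range (len j m)).filter (fun t => Occ w (fun _ : Fin j => 0) t)).card : ℕ) : ℝ)
        / (WW j m : ℝ) := by
  have hbK := bb_le_KK m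
  have hb := bb_pos m
  have hlo := count_lower_j j m hj (by omega) w hw
  set N := ((range (len j m)).filter (fun t => Occ w (fun _ : Fin j => 0) t)).card with hN
  have hW1 := WW_pos j m
  have hWdef : WW j m = KK m * bb m ^ (KK m - j) := rfl
  have hs : ss j m = WW j m := rfl
  have hloN : 2 * WW j m * bb m ≤ N * bb m + j * WW j m := by
    have h1 : 2 * WW j m ≤ N + j * bb m ^ (KK m - j) := by
      calc 2 * WW j m = (KK m - j) * bb m ^ (KK m - j) + j * bb m ^ (KK m - j) + WW j m := by
            rw [← Nat.add_mul]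
            have : KK m - j + j = KK m := by omega
            rw [this, hWdef]
            ring
        _ ≤ (KK m - j + 1) * bb m ^ (KK m - j) + j * bb m ^ (KK m - j) + WW j m := by
            refine Nat.add_le_add_right (Nat.add_le_add_right (Nat.mul_le_mul_right _ (by omega)) _) _
        _ ≤ _ := by rw [← hs]; omega
    have h2 : j * bb m ^ (KK m - j) * bb m ≤ j * WW j m := by
      rw [Nat.mul_assoc]
      apply Nat.mul_le_mul_left
      rw [hWdef, Nat.mul_comm]
      exact Nat.mul_le_mul_right _ hbK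
    calc 2 * WW j m * bb m ≤ (N + j * bb m ^ (KK m - j)) * bb m := Nat.mul_le_mul_right _ h1
      _ = N * bb m + j * bb m ^ (KK m - j) * bb m := by ring
      _ ≤ _ := by omega
  have hWr : (0 : ℝ) < (WW j m : ℝ) := by exact_mod_cast hW1
  have hbr : (0 : ℝ) < (bb m : ℝ) := by exact_mod_cast hb
  have hlo' : 2 * (WW j m : ℝ) * bb m ≤ N * bb m + j * WW j m := by exact_mod_cast hloN
  rw [sub_le_iff_le_add, div_add_div _ _ hWr.ne' hbr.ne', le_div_iff₀ (mul_pos hWr hbr)]
  linarith

/-! ### The infinite sequences -/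

/-- The stage of the `i`-th word. -/
def st (j i : ℕ) : ℕ := Nat.findGreatest (fun m => m * len j m ≤ i) i

lemma st_spec (j i : ℕ) : st j i * len j (st j i) ≤ i := by
  have := Nat.findGreatest_spec (P := fun m => m * len j m ≤ i) (m := 0) (Nat.zero_le i) (by simp)
  exact this

lemma st_ge (j M i : ℕ) (h1 : M ≤ i) (h2 : M * len j M ≤ i) : M ≤ st j i :=
  Nat.le_findGreatest h1 h2

lemma st_mono (j : ℕ) : Monotone (st j) := by
  intro i i' h
  apply st_ge
  · exact (Nat.findGreatest_le i).trans h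
  · exact (st_spec j i).trans h

lemma st_tendsto (j : ℕ) : Tendsto (st j) atTop atTop :=
  tendsto_atTop_atTop.2 fun M => ⟨max M (M * len j M), fun i hi =>
    st_ge j M i ((le_max_left _ _).trans hi) ((le_max_right _ _).trans hi)⟩

/-- The starting position of the `i`-th word. -/
def S (j i : ℕ) : ℕ := ∑ i' ∈ range i, len j (st j i')

lemma S_succ (j i : ℕ) : S j (i + 1) = S j i + len j (st j i) := Finset.sum_range_succ _ _

lemma S_strictMono (j : ℕ) : StrictMono (S j) := by
  apply strictMono_nat_of_lt_succ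
  intro i
  rw [S_succ]
  have := len_pos j (st j i)
  omega

/-- The index of the word containing position `n`. -/
def idx (j n : ℕ) : ℕ := Nat.findGreatest (fun i => S j i ≤ n) n

lemma idx_spec (j n : ℕ) : S j (idx j n) ≤ n := by
  have := Nat.findGreatest_spec (P := fun i => S j i ≤ n) (m := 0) (Nat.zero_le n) (by simp [S])
  exact this

lemma lt_S_idx_succ (j n : ℕ) : n < S j (idx j n + 1) := by
  by_contra h
  push Not at h
  have h1 : idx j n + 1 ≤ n := ((S_strictMono j).id_le _).trans h
  have := Nat.le_findGreatest (P := fun i => S j i ≤ n) h1 h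
  unfold idx at this
  omega

lemma idx_eq (j n i : ℕ) (h1 : S j i ≤ n) (h2 : n < S j (i + 1)) : idx j n = i := by
  have h3 := idx_spec j n
  have h4 := lt_S_idx_succ j n
  apply le_antisymm
  · by_contra h
    have := (S_strictMono j).monotone (show i + 1 ≤ idx j n by omega)
    omega
  · by_contra h
    have := (S_strictMono j).monotone (show idx j n + 1 ≤ i by omega)
    omega

lemma idx_mono (j : ℕ) : Monotone (idx j) := by
  intro n n' h
  by_contra h'
  have h1 := (S_strictMono j).monotone (show idx j n' + 1 ≤ idx j n by omega)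
  have h2 := idx_spec j n
  have h3 := lt_S_idx_succ j n'
  omega

lemma idx_tendsto (j : ℕ) : Tendsto (idx j) atTop atTop := by
  apply tendsto_atTop_atTop.2
  intro I
  refine ⟨S j I, fun n hn => ?_⟩
  by_contra h
  have h1 := (S_strictMono j).monotone (show idx j n + 1 ≤ I by omega)
  have h3 := lt_S_idx_succ j n
  omega

/-- The basic sequence. -/
def qq (j n : ℕ) : ℕ := bb (st j (idx j n))
/-- The digits. -/
def ee (j n : ℕ) : ℕ := word j (st j (idx j n)) (n - S j (idx j n))

lemma ee_lt (j n : ℕ) : ee j n < qq j n := word_lt _ _ _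

lemma qq_mono (j : ℕ) : Monotone (qq j) := by
  intro n n' h
  have := st_mono j (idx_mono j h)
  unfold qq bb
  omega

lemma qq_tendsto (j : ℕ) : Tendsto (qq j) atTop atTop := by
  have h1 : Tendsto bb atTop atTop := tendsto_atTop_mono (fun m => Nat.le_add_right m 2) tendsto_id
  exact h1.comp ((st_tendsto j).comp (idx_tendsto j))

lemma ee_eq (j i t : ℕ) (ht : t < len j (st j i)) : ee j (S j i + t) = word j (st j i) t := by
  have h := idx_eq j (S j i + t) i (by omega) (by rw [S_succ]; omega)
  unfold ee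
  rw [h]
  congr 1
  omega

lemma qq_eq (j i t : ℕ) (ht : t < len j (st j i)) : qq j (S j i + t) = bb (st j i) := by
  have h := idx_eq j (S j i + t) i (by omega) (by rw [S_succ]; omega)
  unfold qq
  rw [h]

/-! ### Limits -/

lemma stolz (a W : ℕ → ℝ) (θ : ℝ) (hW : ∀ i, 0 < W i)
    (hdiv : Tendsto (fun I => ∑ i ∈ range I, W i) atTop atTop)
    (h : Tendsto (fun i => a i / W i) atTop (nhds θ)) :
    Tendsto (fun I => (∑ i ∈ range I, a i) / ∑ i ∈ range I, W i) atTop (nhds θ) := by
  have h1 : (fun i => a i - θ * W i) =o[atTop] W := by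
    rw [Asymptotics.isLittleO_iff_tendsto (fun i hi => absurd hi (hW i).ne')]
    have : (fun i => (a i - θ * W i) / W i) = fun i => a i / W i - θ := by
      ext i
      rw [sub_div, mul_div_assoc, div_self (hW i).ne', mul_one]
    rw [this]
    simpa using h.sub_const θ
  have h2 := h1.sum_range (fun i => (hW i).le) hdiv
  have h3 := h2.tendsto_div_nhds_zero
  have h4 : ∀ᶠ I in atTop, (∑ i ∈ range I, (a i - θ * W i)) / (∑ i ∈ range I, W i) + θ
      = (∑ i ∈ range I, a i) / ∑ i ∈ range I, W i := by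
    filter_upwards [hdiv.eventually_gt_atTop 0] with I hI
    rw [Finset.sum_sub_distrib, ← Finset.mul_sum]
    field_simp
    ring
  have h5 := h3.add_const θ
  rw [zero_add] at h5
  exact h5.congr' h4

lemma sum_S (j : ℕ) (f : ℕ → ℝ) (I : ℕ) : ∑ n ∈ range (S j I), f n
    = ∑ i ∈ range I, ∑ t ∈ range (len j (st j i)), f (S j i + t) := by
  induction I with
  | zero => simp [S]
  | succ I ih => rw [Finset.sum_range_succ, ← ih, S_succ, Finset.sum_range_add]

/-- The sum of the weights. -/
noncomputable def Om (j k I : ℕ) : ℝ := ∑ i ∈ range I, (WW k (st j i) : ℝ)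

lemma Om_ge (j k I : ℕ) : (I : ℝ) ≤ Om j k I := by
  unfold Om
  calc (I : ℝ) = ∑ i ∈ range I, (1 : ℝ) := by simp
    _ ≤ _ := Finset.sum_le_sum fun i _ => by exact_mod_cast WW_pos k (st j i)

lemma Om_tendsto (j k : ℕ) : Tendsto (Om j k) atTop atTop :=
  tendsto_atTop_mono (Om_ge j k) tendsto_natCast_atTop_atTop

lemma len_small (j k : ℕ) : Tendsto (fun I => (len j (st j I) : ℝ) / Om j k I) atTop (nhds 0) := by
  have h0 : Tendsto (fun I => ((st j I : ℕ) : ℝ)⁻¹) atTop (nhds 0) :=
    tendsto_inv_atTop_zero.comp (tendsto_natCast_atTop_atTop.comp (st_tendsto j))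
  refine squeeze_zero' (Eventually.of_forall fun I => ?_) ?_ h0
  · exact div_nonneg (Nat.cast_nonneg _) ((Nat.cast_nonneg _).trans (Om_ge j k I))
  · filter_upwards [(st_tendsto j).eventually_ge_atTop 1, eventually_ge_atTop 1] with I hI hI1
    have h1 : ((st j I : ℕ) : ℝ) * len j (st j I) ≤ I := by exact_mod_cast st_spec j I
    have h2 := Om_ge j k I
    have h3 : (1 : ℝ) ≤ I := by exact_mod_cast hI1
    have h4 : (1 : ℝ) ≤ (st j I : ℕ) := by exact_mod_cast hI
    rw [div_le_iff₀ (by linarith), inv_mul_eq_div, le_div_iff₀ (by linarith)]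
    linarith

/-- From sums over words to sums over all initial segments. -/
lemma interpolate (j k : ℕ) (f : ℕ → ℝ) (hf0 : ∀ n, 0 ≤ f n) (hf1 : ∀ n, f n ≤ 1) (θ : ℝ)
    (h : Tendsto (fun i => (∑ t ∈ range (len j (st j i)), f (S j i + t)) / (WW k (st j i) : ℝ))
      atTop (nhds θ)) :
    Tendsto (fun N => (∑ n ∈ range N, f n) / Om j k (idx j N)) atTop (nhds θ) := by
  have h1 := stolz (fun i => ∑ t ∈ range (len j (st j i)), f (S j i + t)) (fun i => (WW k (st j i) : ℝ)) θ
    (fun i => by exact_mod_cast WW_pos k (st j i)) (Om_tendsto j k) h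
  have h2 := h1.comp (idx_tendsto j)
  have h3 := (h1.add (len_small j k)).comp (idx_tendsto j)
  rw [add_zero] at h3
  refine tendsto_of_tendsto_of_tendsto_of_le_of_le h2 h3 ?_ ?_
  · intro N
    simp only [Function.comp_apply]
    have hpos : 0 ≤ Om j k (idx j N) := (Nat.cast_nonneg _).trans (Om_ge j k _)
    apply div_le_div_of_nonneg_right _ hpos
    rw [← sum_S]
    apply Finset.sum_le_sum_of_subset_of_nonneg
    · intro n hn
      rw [Finset.mem_range] at *
      have := idx_spec j N
      omega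
    · intro n _ _
      exact hf0 n
  · intro N
    simp only [Function.comp_apply]
    have hpos : 0 ≤ Om j k (idx j N) := (Nat.cast_nonneg _).trans (Om_ge j k _)
    have hOm : Om j k (idx j N) = ∑ i ∈ range (idx j N), (WW k (st j i) : ℝ) := rfl
    rw [← hOm, ← add_div]
    apply div_le_div_of_nonneg_right _ hpos
    rw [← sum_S]
    have h5 := idx_spec j N
    have h6 := lt_S_idx_succ j N
    rw [S_succ] at h6
    obtain ⟨r, hr⟩ := Nat.exists_eq_add_of_le h5
    have hr2 : r ≤ len j (st j (idx j N)) := by omega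
    conv_lhs => rw [hr]
    rw [Finset.sum_range_add]
    have h7 : ∑ x ∈ range r, f (S j (idx j N) + x) ≤ ∑ x ∈ range r, (1 : ℝ) :=
      Finset.sum_le_sum fun x _ => hf1 _
    have h8 : ∑ x ∈ range r, (1 : ℝ) = r := by simp
    have h9 : (r : ℝ) ≤ len j (st j (idx j N)) := by exact_mod_cast hr2
    linarith

/-! ### The main combinatorial statement -/

/-- The weight of a window of length `k`. -/
noncomputable def gg (q : ℕ → ℕ) (k n : ℕ) : ℝ := 1 / ∏ t ∈ range k, (q (n + t) : ℝ)

lemma gg_nonneg (q : ℕ → ℕ) (k n : ℕ) : 0 ≤ gg q k n :=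
  div_nonneg zero_le_one (Finset.prod_nonneg fun _ _ => Nat.cast_nonneg _)

lemma qq_ge (j n : ℕ) : 2 ≤ qq j n := by unfold qq bb; omega

lemma gg_le (j k n m : ℕ) (h : ∀ t < k, bb m ≤ qq j (n + t)) :
    gg (qq j) k n ≤ 1 / (bb m : ℝ) ^ k := by
  unfold gg
  have hb : (0 : ℝ) < bb m := by exact_mod_cast bb_pos m
  apply one_div_le_one_div_of_le (pow_pos hb k)
  rw [← Finset.card_range k, ← Finset.prod_const, Finset.card_range]
  apply Finset.prod_le_prod
  · intro _ _; exact hb.le
  · intro t ht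
    exact_mod_cast h t (Finset.mem_range.1 ht)

lemma gg_ratio (j k i : ℕ) (hj : 1 ≤ j) (hk1 : 1 ≤ k) (hk : k + 1 ≤ bb (st j i)) (hjb : j ≤ bb (st j i)) :
    |(∑ t ∈ range (len j (st j i)), gg (qq j) k (S j i + t)) / (WW k (st j i) : ℝ) - 1|
      ≤ (2 * k + j + 2) / (bb (st j i) : ℝ) := by
  set m := st j i with hm
  have hbK := bb_le_KK m
  have hb := bb_pos m
  have hbr : (0 : ℝ) < (bb m : ℝ) := by exact_mod_cast hb
  have hb1 : (1 : ℝ) ≤ (bb m : ℝ) := by exact_mod_cast hb
  have hW1 := WW_pos k m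
  have hWr : (0 : ℝ) < (WW k m : ℝ) := by exact_mod_cast hW1
  have hW1r : (1 : ℝ) ≤ (WW k m : ℝ) := by exact_mod_cast hW1
  have hbk : (0 : ℝ) < (bb m : ℝ) ^ k := pow_pos hbr k
  -- upper bound
  have hup : ∑ t ∈ range (len j m), gg (qq j) k (S j i + t) ≤ len j m * (1 / (bb m : ℝ) ^ k) := by
    calc ∑ t ∈ range (len j m), gg (qq j) k (S j i + t)
        ≤ ∑ t ∈ range (len j m), (1 / (bb m : ℝ) ^ k) := by
          apply Finset.sum_le_sum
          intro t ht
          rw [Finset.mem_range] at ht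
          apply gg_le
          intro u _
          rw [← qq_eq j i t ht]
          exact qq_mono j (by omega)
      _ = _ := by simp
  -- lower bound
  have hlo : ((l1 m : ℝ) - k) * (1 / (bb m : ℝ) ^ k)
      ≤ ∑ t ∈ range (len j m), gg (qq j) k (S j i + t) := by
    have hl : l1 m ≤ len j m := by unfold len; omega
    have h1 : ∑ t ∈ range (l1 m - k), (1 / (bb m : ℝ) ^ k)
        ≤ ∑ t ∈ range (len j m), gg (qq j) k (S j i + t) := by
      calc ∑ t ∈ range (l1 m - k), (1 / (bb m : ℝ) ^ k)
          ≤ ∑ t ∈ range (l1 m - k), gg (qq j) k (S j i + t) := by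
            apply Finset.sum_le_sum
            intro t ht
            rw [Finset.mem_range] at ht
            unfold gg
            have : ∏ u ∈ range k, (qq j (S j i + t + u) : ℝ) = (bb m : ℝ) ^ k := by
              rw [← Finset.card_range k, ← Finset.prod_const, Finset.card_range]
              apply Finset.prod_congr rfl
              intro u hu
              rw [Finset.mem_range] at hu
              have hlt : t + u < len j (st j i) := by rw [← hm]; omega
              rw [Nat.add_assoc, qq_eq j i (t + u) hlt]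
            rw [this]
        _ ≤ _ := by
            apply Finset.sum_le_sum_of_subset_of_nonneg
            · intro t ht
              rw [Finset.mem_range] at *
              omega
            · intro t _ _
              exact gg_nonneg _ _ _
    refine le_trans ?_ h1
    rw [Finset.sum_const, Finset.card_range, nsmul_eq_mul]
    apply mul_le_mul_of_nonneg_right _ (by positivity)
    have : (l1 m : ℝ) ≤ ((l1 m - k : ℕ) : ℝ) + k := by
      exact_mod_cast (show l1 m ≤ (l1 m - k) + k by omega)
    linarith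
  -- the main term
  have hmain : (l1 m : ℝ) * (1 / (bb m : ℝ) ^ k) = WW k m := by
    unfold l1 WW
    push_cast
    have : (bb m : ℝ) ^ KK m = (bb m : ℝ) ^ (KK m - k) * (bb m : ℝ) ^ k := by
      rw [← pow_add]
      congr 1
      omega
    rw [this]
    field_simp
  have hbkb : (1 / (bb m : ℝ) ^ k) ≤ 1 / (bb m : ℝ) := by
    apply one_div_le_one_div_of_le hbr
    calc (bb m : ℝ) = (bb m : ℝ) ^ 1 := (pow_one _).symm
      _ ≤ _ := pow_le_pow_right₀ hb1 hk1
  -- the inserted part
  have hins : ((ss j m * (j + 2) : ℕ) : ℝ) * (1 / (bb m : ℝ) ^ k) ≤ (j + 2) * (WW k m : ℝ) / bb m := by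
    have h1 : (ss j m : ℝ) * bb m ≤ l1 m := by
      have : ss j m * bb m ≤ l1 m := by
        unfold ss l1
        calc KK m * bb m ^ (KK m - j) * bb m = bb m ^ (KK m - j + 1) * KK m := by rw [pow_succ]; ring
          _ ≤ _ := Nat.mul_le_mul_right _ (Nat.pow_le_pow_right hb (by omega))
      exact_mod_cast this
    rw [le_div_iff₀ hbr, ← hmain]
    push_cast
    have h2 : 0 ≤ 1 / (bb m : ℝ) ^ k := by positivity
    have h3 : (0 : ℝ) ≤ (j : ℝ) + 2 := by positivity
    calc (ss j m : ℝ) * ((j : ℝ) + 2) * (1 / (bb m : ℝ) ^ k) * bb m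
        = ((j : ℝ) + 2) * (1 / (bb m : ℝ) ^ k) * ((ss j m : ℝ) * bb m) := by ring
      _ ≤ ((j : ℝ) + 2) * (1 / (bb m : ℝ) ^ k) * l1 m :=
          mul_le_mul_of_nonneg_left h1 (mul_nonneg h3 h2)
      _ = _ := by ring
  have hlen : (len j m : ℝ) = l1 m + ((ss j m * (j + 2) : ℕ) : ℝ) := by
    unfold len
    push_cast
    ring
  set G := ∑ t ∈ range (len j m), gg (qq j) k (S j i + t) with hG
  have hup' : G * bb m ≤ WW k m * bb m + (2 * k + j + 2) * WW k m := by
    rw [hlen, add_mul, hmain] at hup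
    have h1 : G ≤ WW k m + (j + 2) * (WW k m : ℝ) / bb m := hup.trans (by linarith)
    have h2 : G * bb m ≤ (WW k m + (j + 2) * (WW k m : ℝ) / bb m) * bb m :=
      mul_le_mul_of_nonneg_right h1 hbr.le
    have h3 : (WW k m + (j + 2) * (WW k m : ℝ) / bb m) * bb m = WW k m * bb m + (j + 2) * WW k m := by
      field_simp
    rw [h3] at h2
    have h4 : (0 : ℝ) ≤ 2 * k * (WW k m : ℝ) := by positivity
    linarith
  have hlo' : (WW k m : ℝ) * bb m ≤ G * bb m + (2 * k + j + 2) * WW k m := by
    rw [sub_mul, hmain] at hlo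
    have h1 : (k : ℝ) * (1 / (bb m : ℝ) ^ k) ≤ k * (1 / (bb m : ℝ)) :=
      mul_le_mul_of_nonneg_left hbkb (Nat.cast_nonneg k)
    have h2 : (WW k m : ℝ) ≤ G + k * (1 / (bb m : ℝ)) := by linarith
    have h3 : (WW k m : ℝ) * bb m ≤ (G + k * (1 / (bb m : ℝ))) * bb m :=
      mul_le_mul_of_nonneg_right h2 hbr.le
    have h4 : (G + k * (1 / (bb m : ℝ))) * bb m = G * bb m + k := by
      field_simp
    rw [h4] at h3
    have h5 : (k : ℝ) ≤ k * WW k m := by
      have : (0 : ℝ) ≤ k := Nat.cast_nonneg k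
      nlinarith
    have h6 : (0 : ℝ) ≤ ((k : ℝ) + j + 2) * WW k m := by positivity
    linarith
  rw [abs_le]
  constructor
  · rw [neg_le_sub_iff_le_add, div_add_div _ _ hWr.ne' hbr.ne', le_div_iff₀ (mul_pos hWr hbr)]
    linarith
  · rw [sub_le_iff_le_add, div_add' _ _ _ hbr.ne', div_le_div_iff₀ hWr hbr]
    linarith

lemma bb_st_tendsto (j : ℕ) : Tendsto (fun i => bb (st j i)) atTop atTop := by
  have h1 : Tendsto bb atTop atTop := tendsto_atTop_mono (fun m => Nat.le_add_right m 2) tendsto_id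
  exact h1.comp (st_tendsto j)

lemma tendsto_one_of_abs (j : ℕ) (a : ℕ → ℝ) (C : ℝ)
    (h : ∀ᶠ i in atTop, |a i - 1| ≤ C / (bb (st j i) : ℝ)) : Tendsto a atTop (nhds 1) := by
  have h0 : Tendsto (fun i => C / ((bb (st j i) : ℕ) : ℝ)) atTop (nhds 0) :=
    (tendsto_natCast_atTop_atTop.comp (bb_st_tendsto j)).const_div_atTop C
  rw [tendsto_iff_norm_sub_tendsto_zero]
  refine squeeze_zero' (Eventually.of_forall fun _ => norm_nonneg _) ?_ h0
  filter_upwards [h] with i hi
  rw [Real.norm_eq_abs]
  exact hi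

lemma gg_limit (j k : ℕ) (hj : 1 ≤ j) (hk1 : 1 ≤ k) :
    Tendsto (fun N => (∑ n ∈ range N, gg (qq j) k n) / Om j k (idx j N)) atTop (nhds 1) := by
  apply interpolate
  · exact gg_nonneg _ _
  · intro n
    unfold gg
    rw [div_le_one]
    · have : ∀ t ∈ range k, (1 : ℝ) ≤ (qq j (n + t) : ℝ) := by
        intro t _
        have := qq_ge j (n + t)
        exact_mod_cast (by omega : 1 ≤ qq j (n + t))
      calc (1 : ℝ) = ∏ t ∈ range k, (1 : ℝ) := by simp
        _ ≤ _ := Finset.prod_le_prod (fun _ _ => zero_le_one) this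
    · apply Finset.prod_pos
      intro t _
      have := qq_ge j (n + t)
      exact_mod_cast (by omega : 0 < qq j (n + t))
  · apply tendsto_one_of_abs j _ (2 * k + j + 2)
    filter_upwards [(bb_st_tendsto j).eventually_ge_atTop (k + 1),
      (bb_st_tendsto j).eventually_ge_atTop j] with i h1 h2
    exact gg_ratio j k i hj hk1 h1 h2

/-- Indicator of an occurrence. -/
noncomputable def ff {k : ℕ} (w : ℕ → ℕ) (B : Fin k → ℕ) (n : ℕ) : ℝ := if Occ w B n then 1 else 0

lemma sum_ff {k : ℕ} (w : ℕ → ℕ) (B : Fin k → ℕ) (N s : ℕ) : ∑ t ∈ range N, ff w B (s + t)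
    = (((range N).filter (fun t => Occ (fun n => w (s + n)) B t)).card : ℝ) := by
  unfold ff
  rw [Finset.sum_ite, Finset.sum_const_zero, add_zero, Finset.sum_const, nsmul_eq_mul, mul_one]
  congr 2
  ext t
  rw [Finset.mem_filter, Finset.mem_filter]
  simp only [Occ, Nat.add_assoc]

lemma ff_nonneg {k : ℕ} (w : ℕ → ℕ) (B : Fin k → ℕ) (n : ℕ) : 0 ≤ ff w B n := by
  unfold ff; split_ifs <;> norm_num

lemma ff_le_one {k : ℕ} (w : ℕ → ℕ) (B : Fin k → ℕ) (n : ℕ) : ff w B n ≤ 1 := by
  unfold ff; split_ifs <;> norm_num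

lemma ff_limit {k : ℕ} (j : ℕ) (hk1 : 1 ≤ k) (hkj : k ≠ j) (B : Fin k → ℕ) :
    Tendsto (fun N => (∑ n ∈ range N, ff (ee j) B n) / Om j k (idx j N)) atTop (nhds 1) := by
  apply interpolate
  · exact ff_nonneg _ _
  · exact ff_le_one _ _
  · apply tendsto_one_of_abs j _ (2 * k + j + 2)
    filter_upwards [(bb_st_tendsto j).eventually_ge_atTop (k + 1),
      (bb_st_tendsto j).eventually_ge_atTop (Finset.univ.sup B + 2)] with i h1 h2
    rw [sum_ff]
    apply count_ratio j (st j i) B _ hk1 h1 hkj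
    · intro t ht
      exact ee_eq j i t ht
    · intro v
      have : B v ≤ Finset.univ.sup B := Finset.le_sup (Finset.mem_univ v)
      omega

lemma ff_not_limit (j : ℕ) (hj : 1 ≤ j) :
    ¬ Tendsto (fun N => (∑ n ∈ range N, ff (ee j) (fun _ : Fin j => 0) n) / Om j j (idx j N)) atTop
      (nhds 1) := by
  intro h
  -- compare with the words
  have h1 : Tendsto (fun i => 2 - (j : ℝ) / ((bb (st j i) : ℕ) : ℝ)) atTop (nhds 2) := by
    have h0 : Tendsto (fun i => (j : ℝ) / ((bb (st j i) : ℕ) : ℝ)) atTop (nhds 0) :=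
      (tendsto_natCast_atTop_atTop.comp (bb_st_tendsto j)).const_div_atTop _
    simpa using h0.const_sub 2
  have h2 : Tendsto (fun i => min (2 - (j : ℝ) / ((bb (st j i) : ℕ) : ℝ))
      ((∑ t ∈ range (len j (st j i)), ff (ee j) (fun _ : Fin j => 0) (S j i + t))
        / (WW j (st j i) : ℝ))) atTop (nhds 2) := by
    refine h1.congr' ?_
    filter_upwards [(bb_st_tendsto j).eventually_ge_atTop (j + 1)] with i hi
    symm
    apply min_eq_left
    rw [sum_ff]
    exact count_ratio_j j (st j i) hj hi _ (fun t ht => ee_eq j i t ht)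
  have h3 := stolz (fun i => min (2 - (j : ℝ) / ((bb (st j i) : ℕ) : ℝ))
      ((∑ t ∈ range (len j (st j i)), ff (ee j) (fun _ : Fin j => 0) (S j i + t))
        / (WW j (st j i) : ℝ)) * (WW j (st j i) : ℝ)) (fun i => (WW j (st j i) : ℝ)) 2
        (fun i => by exact_mod_cast WW_pos j (st j i)) (Om_tendsto j j)
        (h2.congr (fun i => by
          have : (WW j (st j i) : ℝ) ≠ 0 := by
            have := WW_pos j (st j i)
            exact_mod_cast (by omega : WW j (st j i) ≠ 0)
          rw [mul_div_cancel_right₀ _ this]))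
  have h4 := h3.comp (idx_tendsto j)
  have h5 : (2 : ℝ) ≤ 1 := by
    refine le_of_tendsto_of_tendsto h4 h (Eventually.of_forall fun N => ?_)
    simp only [Function.comp_apply]
    have hpos : 0 ≤ Om j j (idx j N) := (Nat.cast_nonneg _).trans (Om_ge j j _)
    have hOm : Om j j (idx j N) = ∑ i ∈ range (idx j N), (WW j (st j i) : ℝ) := rfl
    rw [← hOm]
    apply div_le_div_of_nonneg_right _ hpos
    calc _ ≤ ∑ i ∈ range (idx j N), ∑ t ∈ range (len j (st j i)), ff (ee j) (fun _ : Fin j => 0) (S j i + t) := by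
          apply Finset.sum_le_sum
          intro i _
          have hW : (0 : ℝ) < (WW j (st j i) : ℝ) := by exact_mod_cast WW_pos j (st j i)
          calc _ ≤ ((∑ t ∈ range (len j (st j i)), ff (ee j) (fun _ : Fin j => 0) (S j i + t))
                / (WW j (st j i) : ℝ)) * (WW j (st j i) : ℝ) :=
                mul_le_mul_of_nonneg_right (min_le_right _ _) hW.le
            _ = _ := div_mul_cancel₀ _ hW.ne'
      _ = ∑ n ∈ range (S j (idx j N)), ff (ee j) (fun _ : Fin j => 0) n := (sum_S _ _ _).symm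
      _ ≤ _ := by
          apply Finset.sum_le_sum_of_subset_of_nonneg
          · intro n hn
            rw [Finset.mem_range] at *
            have := idx_spec j N
            omega
          · intro n _ _
            exact ff_nonneg _ _ _
  norm_num at h5

/-- The core statement. -/
theorem core (j : ℕ) (hj : 1 ≤ j) : ∃ q e : ℕ → ℕ, (∀ n, 2 ≤ q n) ∧ (∀ n, e n < q n) ∧
    (∀ N, ∃ n, N ≤ n ∧ e n = 0) ∧ Tendsto q atTop atTop ∧
    (∀ k, 1 ≤ k → Tendsto (fun N => ∑ n ∈ range N, gg q k n) atTop atTop) ∧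
    (∀ k, 1 ≤ k → k ≠ j → ∀ B : Fin k → ℕ,
      Tendsto (fun N => (∑ n ∈ range N, ff e B n) / ∑ n ∈ range N, gg q k n) atTop (nhds 1)) ∧
    ¬ Tendsto (fun N => (∑ n ∈ range N, ff e (fun _ : Fin j => 0) n) / ∑ n ∈ range N, gg q j n)
      atTop (nhds 1) := by
  have hOm' : ∀ k, ∀ᶠ N in atTop, 0 < Om j k (idx j N) := by
    intro k
    filter_upwards [(Om_tendsto j k).comp (idx_tendsto j) |>.eventually_gt_atTop 0] with N hN
    exact hN
  have hgdiv : ∀ k, 1 ≤ k → Tendsto (fun N => ∑ n ∈ range N, gg (qq j) k n) atTop atTop := by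
    intro k hk
    have h1 := gg_limit j k hj hk
    have h2 := (h1.pos_mul_atTop zero_lt_one ((Om_tendsto j k).comp (idx_tendsto j)))
    refine h2.congr' ?_
    filter_upwards [hOm' k] with N hN
    simp only [Function.comp_apply]
    exact div_mul_cancel₀ _ hN.ne'
  refine ⟨qq j, ee j, qq_ge j, ee_lt j, ?_, qq_tendsto j, hgdiv, ?_, ?_⟩
  · intro N
    refine ⟨S j N, (S_strictMono j).id_le N, ?_⟩
    have h := ee_eq j N 0 (len_pos j _)
    rw [Nat.add_zero] at h
    rw [h]
    unfold word
    rw [if_pos (l1_pos _)]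
    simp
  · intro k hk hkj B
    have h1 := gg_limit j k hj hk
    have h2 := ff_limit j hk hkj B
    have h3 := h2.div h1 one_ne_zero
    rw [div_one] at h3
    refine h3.congr' ?_
    filter_upwards [hOm' k] with N hN
    simp only [Pi.div_apply]
    exact div_div_div_cancel_right₀ hN.ne' _ _
  · intro h
    have h1 := gg_limit j j hj hj
    have h2 := h.mul h1
    rw [one_mul] at h2
    apply ff_not_limit j hj
    refine h2.congr' ?_
    filter_upwards [hOm' j, (hgdiv j hj).eventually_gt_atTop 0] with N hN hN2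
    field_simp

/-! ### Cantor series -/

/-- A basic sequence `Q = (q_n)_{n ≥ 1}` of integers `q_n ≥ 2` (the value `q 0` is irrelevant). -/
def IsBasic (q : ℕ → ℕ) : Prop := ∀ n, 1 ≤ n → 2 ≤ q n

/-- `E_0, E_1, E_2, …` is the `Q`-Cantor series expansion of `x`: `E_0 = ⌊x⌋`, `0 ≤ E_n ≤ q_n - 1` for
`n ≥ 1`, `E_n ≠ q_n - 1` for infinitely many `n`, and `x = E_0 + ∑_{n ≥ 1} E_n / (q_1 ⋯ q_n)`. -/
structure IsExpansion (q : ℕ → ℕ) (x : ℝ) (E : ℕ → ℤ) : Prop where
  floor : E 0 = ⌊x⌋
  digits : ∀ n, 1 ≤ n → 0 ≤ E n ∧ E n < q n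
  infinitely : ∀ N, ∃ n, N ≤ n ∧ 1 ≤ n ∧ E n ≠ (q n : ℤ) - 1
  sum : HasSum (fun n : ℕ => (E (n + 1) : ℝ) / ∏ i ∈ Finset.Icc 1 (n + 1), (q i : ℝ)) (x - E 0)

/-- The number of indices `1 ≤ i ≤ n` with `(E_i, …, E_{i+k-1}) = B`. -/
noncomputable def countBlock (E : ℕ → ℤ) {k : ℕ} (B : Fin k → ℕ) (n : ℕ) : ℕ := by
  classical
  exact ((Finset.Icc 1 n).filter (fun i => ∀ t : Fin k, E (i + t) = (B t : ℤ))).card

/-- `Q^{(k)}_n = ∑_{i=1}^{n} 1 / (q_i q_{i+1} ⋯ q_{i+k-1})`. -/
noncomputable def Qsum (q : ℕ → ℕ) (k n : ℕ) : ℝ :=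
  ∑ i ∈ Finset.Icc 1 n, 1 / ∏ t ∈ range k, (q (i + t) : ℝ)

/-- `Q` is `k`-divergent for every `k ≥ 1`. -/
def FullyDivergent (q : ℕ → ℕ) : Prop := ∀ k, 1 ≤ k → Tendsto (Qsum q k) atTop atTop

/-- `N_k(Q)`: the set of reals that are `Q`-normal of order `k`. -/
def NormalSet (q : ℕ → ℕ) (k : ℕ) : Set ℝ := {x | ∃ E : ℕ → ℤ, IsExpansion q x E ∧
  ∀ B : Fin k → ℕ, Tendsto (fun n => (countBlock E B n : ℝ) / Qsum q k n) atTop (nhds 1)}

/-- `q_1 ⋯ q_n`. -/
noncomputable def PP (q : ℕ → ℕ) (n : ℕ) : ℝ := ∏ i ∈ Finset.Icc 1 n, (q i : ℝ)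

lemma PP_succ (q : ℕ → ℕ) (n : ℕ) : PP q (n + 1) = PP q n * q (n + 1) := by
  unfold PP
  rw [Finset.prod_Icc_succ_top (by omega)]

lemma PP_pos {q : ℕ → ℕ} (hq : IsBasic q) (n : ℕ) : 0 < PP q n := by
  apply Finset.prod_pos
  intro i hi
  have := hq i (Finset.mem_Icc.1 hi).1
  exact_mod_cast (by omega : 0 < q i)

/-- The partial sums. -/
noncomputable def psum (q : ℕ → ℕ) (E : ℕ → ℤ) (n : ℕ) : ℝ := ∑ i ∈ range n, (E (i + 1) : ℝ) / PP q (i + 1)

lemma upper_step {q : ℕ → ℕ} (hq : IsBasic q) {E : ℕ → ℤ}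
    (hd : ∀ n, 1 ≤ n → 0 ≤ E n ∧ E n < q n) (n : ℕ) :
    psum q E (n + 1) + 1 / PP q (n + 1) ≤ psum q E n + 1 / PP q n ∧
    (E (n + 1) ≠ (q (n + 1) : ℤ) - 1 →
      psum q E (n + 1) + 1 / PP q (n + 1) < psum q E n + 1 / PP q n) := by
  have h1 := PP_pos hq n
  have h2 := PP_pos hq (n + 1)
  have hqp : (0 : ℝ) < q (n + 1) := by
    have := hq (n + 1) (by omega)
    exact_mod_cast (by omega : 0 < q (n + 1))
  have h3 : 1 / PP q n = (q (n + 1) : ℝ) / PP q (n + 1) := by
    rw [PP_succ]
    field_simp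
  have h4 : psum q E (n + 1) = psum q E n + (E (n + 1) : ℝ) / PP q (n + 1) :=
    Finset.sum_range_succ _ _
  rw [h3, h4, add_assoc, ← add_div]
  have h5 := (hd (n + 1) (by omega)).2
  constructor
  · apply add_le_add_right
    apply div_le_div_of_nonneg_right _ h2.le
    exact_mod_cast (by omega : E (n + 1) + 1 ≤ (q (n + 1) : ℤ))
  · intro hne
    apply add_lt_add_right
    apply div_lt_div_of_pos_right _ h2
    exact_mod_cast (by omega : E (n + 1) + 1 < (q (n + 1) : ℤ))

lemma upper_anti {q : ℕ → ℕ} (hq : IsBasic q) {E : ℕ → ℤ}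
    (hd : ∀ n, 1 ≤ n → 0 ≤ E n ∧ E n < q n) : Antitone (fun n => psum q E n + 1 / PP q n) :=
  antitone_nat_of_succ_le fun n => (upper_step hq hd n).1

lemma psum_mono {q : ℕ → ℕ} (hq : IsBasic q) {E : ℕ → ℤ}
    (hd : ∀ n, 1 ≤ n → 0 ≤ E n ∧ E n < q n) : Monotone (psum q E) := by
  apply monotone_nat_of_le_succ
  intro n
  have h4 : psum q E (n + 1) = psum q E n + (E (n + 1) : ℝ) / PP q (n + 1) :=
    Finset.sum_range_succ _ _
  rw [h4]
  have : 0 ≤ (E (n + 1) : ℝ) / PP q (n + 1) :=
    div_nonneg (by exact_mod_cast (hd (n + 1) (by omega)).1) (PP_pos hq _).le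
  linarith

lemma tail_bounds {q : ℕ → ℕ} (hq : IsBasic q) {E : ℕ → ℤ}
    (hd : ∀ n, 1 ≤ n → 0 ≤ E n ∧ E n < q n)
    (hinf : ∀ N, ∃ n, N ≤ n ∧ 1 ≤ n ∧ E n ≠ (q n : ℤ) - 1) {y : ℝ}
    (hs : Tendsto (psum q E) atTop (nhds y)) (n : ℕ) :
    psum q E n ≤ y ∧ y < psum q E n + 1 / PP q n := by
  refine ⟨(psum_mono hq hd).ge_of_tendsto hs n, ?_⟩
  have h1 : ∀ m, y ≤ psum q E m + 1 / PP q m := by
    intro m
    refine le_of_tendsto hs ?_
    filter_upwards [eventually_ge_atTop m] with M hM
    have h2 := upper_anti hq hd hM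
    have h3 : 0 < 1 / PP q M := one_div_pos.2 (PP_pos hq M)
    simp only at h2
    linarith
  obtain ⟨m, hm1, hm2, hm3⟩ := hinf (n + 1)
  obtain ⟨m', rfl⟩ : ∃ m', m = m' + 1 := ⟨m - 1, by omega⟩
  have h4 := (upper_step hq hd m').2 hm3
  have h5 := h1 (m' + 1)
  have h6 := upper_anti hq hd (show n ≤ m' by omega)
  simp only at h6
  linarith

/-- The integer `q_1 ⋯ q_n (E_0 + ∑_{i ≤ n} E_i / (q_1 ⋯ q_i))`. -/
def AA (q : ℕ → ℕ) (E : ℕ → ℤ) : ℕ → ℤ
  | 0 => E 0
  | n + 1 => (q (n + 1) : ℤ) * AA q E n + E (n + 1)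

lemma AA_eq {q : ℕ → ℕ} (hq : IsBasic q) (E : ℕ → ℤ) (n : ℕ) :
    (AA q E n : ℝ) = PP q n * (E 0 + psum q E n) := by
  induction n with
  | zero => simp [AA, PP, psum]
  | succ n ih =>
    have h4 : psum q E (n + 1) = psum q E n + (E (n + 1) : ℝ) / PP q (n + 1) :=
      Finset.sum_range_succ _ _
    have h2 := PP_pos hq (n + 1)
    have h5 : PP q (n + 1) * ((E (n + 1) : ℝ) / PP q (n + 1)) = E (n + 1) := by
      field_simp
    have h6 : (AA q E (n + 1) : ℝ) = (q (n + 1) : ℝ) * AA q E n + E (n + 1) := by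
      simp only [AA]
      push_cast
      ring
    rw [h6, ih, h4]
    calc (q (n + 1) : ℝ) * (PP q n * (E 0 + psum q E n)) + E (n + 1)
        = PP q n * q (n + 1) * (E 0 + psum q E n) + E (n + 1) := by ring
      _ = PP q (n + 1) * (E 0 + psum q E n) + PP q (n + 1) * ((E (n + 1) : ℝ) / PP q (n + 1)) := by
          rw [h5, PP_succ]
      _ = _ := by ring

lemma floor_eq {q : ℕ → ℕ} (hq : IsBasic q) {x : ℝ} {E : ℕ → ℤ} (h : IsExpansion q x E) (n : ℕ) :
    ⌊PP q n * x⌋ = AA q E n := by
  have hs : Tendsto (psum q E) atTop (nhds (x - E 0)) := h.sum.tendsto_sum_nat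
  have hb := tail_bounds hq h.digits h.infinitely hs n
  have hP := PP_pos hq n
  rw [Int.floor_eq_iff, AA_eq hq]
  constructor
  · apply mul_le_mul_of_nonneg_left _ hP.le
    linarith
  · have h1 : x < E 0 + psum q E n + 1 / PP q n := by linarith [hb.2]
    calc PP q n * x < PP q n * (E 0 + psum q E n + 1 / PP q n) := mul_lt_mul_of_pos_left h1 hP
      _ = _ := by field_simp

/-- The Cantor series expansion is unique. -/
lemma expansion_unique {q : ℕ → ℕ} (hq : IsBasic q) {x : ℝ} {E E' : ℕ → ℤ}
    (h : IsExpansion q x E) (h' : IsExpansion q x E') : E = E' := by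
  have hA : ∀ n, AA q E n = AA q E' n := fun n => by rw [← floor_eq hq h, ← floor_eq hq h']
  ext n
  cases n with
  | zero => exact hA 0
  | succ n =>
    have h1 := hA (n + 1)
    simp only [AA] at h1
    rw [hA n] at h1
    linarith

/-- Every digit sequence is the expansion of some number in `[0,1)`. -/
lemma exists_expansion {q : ℕ → ℕ} (hq : IsBasic q) {E : ℕ → ℤ} (h0 : E 0 = 0)
    (hd : ∀ n, 1 ≤ n → 0 ≤ E n ∧ E n < q n)
    (hinf : ∀ N, ∃ n, N ≤ n ∧ 1 ≤ n ∧ E n ≠ (q n : ℤ) - 1) : ∃ x : ℝ, IsExpansion q x E := by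
  have hsummable : Summable (fun n : ℕ => (E (n + 1) : ℝ) / PP q (n + 1)) := by
    apply summable_of_sum_range_le (c := 1)
    · intro n
      exact div_nonneg (by exact_mod_cast (hd (n + 1) (by omega)).1) (PP_pos hq _).le
    · intro n
      have h2 := upper_anti hq hd (Nat.zero_le n)
      have h3 : 0 < 1 / PP q n := one_div_pos.2 (PP_pos hq n)
      have h4 : psum q E 0 + 1 / PP q 0 = 1 := by simp [psum, PP]
      simp only at h2
      rw [h4] at h2
      have h5 : psum q E n = ∑ i ∈ range n, (E (i + 1) : ℝ) / PP q (i + 1) := rfl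
      rw [← h5]
      linarith
  obtain ⟨x, hx⟩ := hsummable
  have hs : Tendsto (psum q E) atTop (nhds x) := hx.tendsto_sum_nat
  have hb := tail_bounds hq hd hinf hs 0
  have h6 : psum q E 0 = 0 := by simp [psum]
  have h7 : PP q 0 = 1 := by simp [PP]
  rw [h6, h7] at hb
  refine ⟨x, ⟨?_, hd, hinf, ?_⟩⟩
  · rw [h0]
    symm
    rw [Int.floor_eq_iff]
    constructor
    · simpa using hb.1
    · simpa using hb.2
  · rw [h0, Int.cast_zero, sub_zero]
    exact hx

/-- For every `j` there are a fully divergent `Q` (with `q_n → ∞`) and an `x` that is `Q`-normal of all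
orders other than `j`, but not of order `j`. -/
theorem exists_not_normal_exactly (j : ℕ) (hj : 1 ≤ j) : ∃ q : ℕ → ℕ, IsBasic q ∧ FullyDivergent q ∧
    Tendsto q atTop atTop ∧ ∃ x : ℝ, (∀ k, 1 ≤ k → k ≠ j → x ∈ NormalSet q k) ∧ x ∉ NormalSet q j := by
  classical
  obtain ⟨q', e', hq', he', hz, hqt, hdiv, hnorm, hnot⟩ := core j hj
  set q : ℕ → ℕ := fun n => q' (n - 1) with hq
  set E : ℕ → ℤ := fun n => if n = 0 then 0 else (e' (n - 1) : ℤ) with hE
  have hbasic : IsBasic q := fun n _ => hq' _
  have hQ : ∀ k N, Qsum q k N = ∑ n ∈ range N, gg q' k n := by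
    intro k N
    induction N with
    | zero => simp [Qsum]
    | succ N ih =>
      unfold Qsum at *
      rw [Finset.sum_Icc_succ_top (by omega), ih, Finset.sum_range_succ]
      congr 1
      unfold gg
      congr 1
      apply Finset.prod_congr rfl
      intro t _
      simp only [hq]
      congr 2
      omega
  have hC : ∀ (k : ℕ) (B : Fin k → ℕ) (N : ℕ), (countBlock E B N : ℝ) = ∑ n ∈ range N, ff e' B n := by
    intro k B N
    induction N with
    | zero => simp [countBlock]
    | succ N ih =>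
      rw [Finset.sum_range_succ, ← ih]
      unfold countBlock
      rw [← Finset.insert_Icc_right_eq_Icc_add_one (by omega), Finset.filter_insert]
      have hiff : (∀ t : Fin k, E (N + 1 + t) = (B t : ℤ)) ↔ Occ e' B N := by
        unfold Occ
        apply forall_congr'
        intro t
        simp only [hE]
        rw [if_neg (by omega)]
        have : N + 1 + (t : ℕ) - 1 = N + t := by omega
        rw [this]
        exact Nat.cast_inj
      unfold ff
      by_cases hocc : Occ e' B N
      · rw [if_pos (hiff.2 hocc), if_pos hocc, Finset.card_insert_of_notMem]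
        · push_cast
          ring
        · simp
      · rw [if_neg (fun h => hocc (hiff.1 h)), if_neg hocc, add_zero]
  have hd : ∀ n, 1 ≤ n → 0 ≤ E n ∧ E n < q n := by
    intro n hn
    simp only [hE, hq]
    rw [if_neg (by omega)]
    exact ⟨Int.natCast_nonneg _, by exact_mod_cast he' (n - 1)⟩
  have hinf : ∀ N, ∃ n, N ≤ n ∧ 1 ≤ n ∧ E n ≠ (q n : ℤ) - 1 := by
    intro N
    obtain ⟨n, hn, hen⟩ := hz N
    refine ⟨n + 1, by omega, by omega, ?_⟩
    simp only [hE, hq]
    rw [if_neg (by omega), Nat.add_sub_cancel, hen]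
    have := hq' n
    push_cast
    omega
  obtain ⟨x, hx⟩ := exists_expansion hbasic (by simp [hE]) hd hinf
  refine ⟨q, hbasic, ?_, ?_, x, ?_, ?_⟩
  · intro k hk
    have : Qsum q k = fun N => ∑ n ∈ range N, gg q' k n := funext (hQ k)
    rw [this]
    exact hdiv k hk
  · exact hqt.comp (tendsto_sub_atTop_nat 1)
  · intro k hk hkj
    refine ⟨E, hx, fun B => ?_⟩
    refine (hnorm k hk hkj B).congr (fun N => ?_)
    rw [hC, hQ]
  · rintro ⟨E', hx', hall⟩
    have hEE := expansion_unique hbasic hx hx'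
    subst hEE
    apply hnot
    refine (hall (fun _ => 0)).congr (fun N => ?_)
    rw [hC, hQ]

/-- For every `j ≥ 1` there are a fully divergent basic sequence `Q` with `q_n → ∞` and a real `x` that is
`Q`-normal of every order `k ≠ j` but not of order `j`.  In particular, for every partition
`ℕ = A ⊔ B` there are a fully divergent `Q` and `x ∈ ⋂_{k ∈ A} N_k(Q) \ ⋂_{j ∈ B} N_j(Q)`. -/
theorem result :
    (∀ j : ℕ, 1 ≤ j → ∃ q : ℕ → ℕ, IsBasic q ∧ FullyDivergent q ∧ Tendsto q atTop atTop ∧
      ∃ x : ℝ, (∀ k, 1 ≤ k → k ≠ j → x ∈ NormalSet q k) ∧ x ∉ NormalSet q j) ∧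
    (∀ A B : Set ℕ, A.Nonempty → B.Nonempty → Disjoint A B → A ∪ B = {n | 1 ≤ n} →
      ∃ q : ℕ → ℕ, IsBasic q ∧ FullyDivergent q ∧
        ∃ x : ℝ, x ∈ (⋂ k ∈ A, NormalSet q k) \ ⋂ j ∈ B, NormalSet q j) := by
  refine ⟨exists_not_normal_exactly, ?_⟩
  intro A B _ hB hdisj hunion
  obtain ⟨j, hj⟩ := hB
  have hj1 : 1 ≤ j := by
    have : j ∈ A ∪ B := Or.inr hj
    rw [hunion] at this
    exact this
  obtain ⟨q, hq, hfd, _, x, hx1, hx2⟩ := exists_not_normal_exactly j hj1
  refine ⟨q, hq, hfd, x, ?_, ?_⟩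
  · rw [Set.mem_iInter₂]
    intro k hk
    have hk1 : 1 ≤ k := by
      have : k ∈ A ∪ B := Or.inl hk
      rw [hunion] at this
      exact this
    apply hx1 k hk1
    rintro rfl
    exact Set.disjoint_left.1 hdisj hk hj
  · intro h
    rw [Set.mem_iInter₂] at h
    exact hx2 (h j hj)

end Pool.Agent.Results.MP_f007e6_nt.AllPartitions
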